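import Pool.Agent.H62.EHB.Est

/-!
# A weak effective height bound: the contradiction
-/

set_option autoImplicit false

namespace H62EHB

open Finset

lemma log_nm_le (S : Finset ℕ) (hS : ∀ p ∈ S, p.Prime) (s : ℕ → ℤ) (B : ℝ)
    (hB : ∀ p ∈ S, ((|s p| : ℤ) : ℝ) ≤ B) :
    Real.log (nm S s : ℝ) ≤ B * ∑ p ∈ S, Real.log (p : ℝ) := by
  rw [nm]
  push_cast
  rw [Real.log_prod (fun p hp => pow_ne_zero _ (by exact_mod_cast (hS p hp).ne_zero)),
    Finset.mul_sum]
  refine Finset.sum_le_sum (fun p hp => ?_)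
  rw [Real.log_pow]
  have h1 : (((s p).toNat : ℕ) : ℝ) ≤ B := by
    refine le_trans ?_ (hB p hp)
    have h2 : (((s p).toNat : ℕ) : ℤ) ≤ |s p| := by
      rcases le_total 0 (s p) with h | h
      · rw [Int.toNat_of_nonneg h]
        exact le_abs_self _
      · rw [Int.toNat_of_nonpos h]
        exact abs_nonneg _
    exact_mod_cast h2
  have h3 : 0 ≤ Real.log (p : ℝ) := Real.log_natCast_nonneg p
  exact mul_le_mul_of_nonneg_right h1 h3

lemma nm_pow_le (S : Finset ℕ) (hS : ∀ p ∈ S, p.Prime) (g : ℕ) (m s e : ℕ → ℤ)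
    (h : ∀ p ∈ S, g * m p = e p - s p) : nm S m ^ g ≤ nm S e * nm S (-s) := by
  rw [nm, nm, nm, ← Finset.prod_pow, ← Finset.prod_mul_distrib]
  refine Finset.prod_le_prod' (fun p hp => ?_)
  rw [← pow_mul, ← pow_add]
  refine Nat.pow_le_pow_right (hS p hp).pos ?_
  have h1 := h p hp
  rw [Pi.neg_apply]
  rcases le_total 0 (m p) with h2 | h2
  · have h3 : (((m p).toNat * g : ℕ) : ℤ) = g * m p := by
      rw [Nat.cast_mul, Int.toNat_of_nonneg h2]
      ring
    omega
  · rw [Int.toNat_of_nonpos h2]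
    omega

lemma nm_rel (S : Finset ℕ) (g : ℕ) (m s e : ℕ → ℤ) (h : ∀ p ∈ S, g * m p = e p - s p) :
    nm S e * nm S (-s) * nm S (-m) ^ g = nm S (-e) * nm S s * nm S m ^ g := by
  simp only [nm]
  rw [← Finset.prod_pow, ← Finset.prod_pow, ← Finset.prod_mul_distrib, ← Finset.prod_mul_distrib,
    ← Finset.prod_mul_distrib, ← Finset.prod_mul_distrib]
  refine Finset.prod_congr rfl (fun p hp => ?_)
  rw [← pow_mul, ← pow_mul, ← pow_add, ← pow_add, ← pow_add, ← pow_add]
  congr 1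
  have h1 := h p hp
  simp only [Pi.neg_apply]
  rcases le_total 0 (m p) with h2 | h2
  · have h3 : (((m p).toNat * g : ℕ) : ℤ) = g * m p := by
      rw [Nat.cast_mul, Int.toNat_of_nonneg h2]
      ring
    have h4 : (-m p).toNat = 0 := Int.toNat_of_nonpos (by omega)
    rw [h4, zero_mul]
    omega
  · have h3 : (((-m p).toNat * g : ℕ) : ℤ) = -(g * m p) := by
      rw [Nat.cast_mul, Int.toNat_of_nonneg (by omega)]
      ring
    have h4 : (m p).toNat = 0 := Int.toNat_of_nonpos (by omega)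
    rw [h4, zero_mul]
    omega

/-- The exponents of `(a / b) ^ 2`. -/
def ex (a b : ℕ) (p : ℕ) : ℤ := 2 * ((a.factorization p : ℤ) - b.factorization p)

lemma nm_sq (a b : ℕ) (ha : a ≠ 0) (hb : b ≠ 0) (hab : Nat.Coprime a b) :
    nm (a * b).primeFactors (ex a b) = a ^ 2 := by
  have h1 : a ^ 2 = ∏ p ∈ (a * b).primeFactors, p ^ (2 * a.factorization p) := by
    have h2 : ∏ p ∈ (a * b).primeFactors, p ^ a.factorization p = a := by
      rw [← Finset.prod_subset (Nat.primeFactors_mono (Nat.dvd_mul_right a b) (mul_ne_zero ha hb))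
        (fun p _ hp => by
          rw [← Nat.support_factorization, Finsupp.notMem_support_iff] at hp
          rw [hp, pow_zero])]
      exact Nat.factorization_prod_pow_eq_self ha
    conv_lhs => rw [← h2]
    rw [← Finset.prod_pow]
    exact Finset.prod_congr rfl (fun p _ => by rw [← pow_mul, mul_comm])
  rw [h1, nm]
  refine Finset.prod_congr rfl (fun p hp => ?_)
  congr 1
  rw [ex]
  by_cases hpa : p ∣ a
  · have hpb : ¬ p ∣ b := by
      intro h
      have := Nat.dvd_gcd hpa h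
      rw [hab.gcd_eq_one] at this
      exact (Nat.prime_of_mem_primeFactors hp).one_lt.ne' (Nat.dvd_one.1 this)
    rw [Nat.factorization_eq_zero_of_not_dvd hpb]
    omega
  · rw [Nat.factorization_eq_zero_of_not_dvd hpa]
    omega

lemma ex_neg (a b : ℕ) : -(ex a b) = ex b a := by
  funext p
  simp only [Pi.neg_apply, ex]
  ring

lemma fac_le_log (a p : ℕ) (ha : a ≠ 0) : a.factorization p ≤ Nat.log 2 a := by
  by_cases hp : p.Prime
  · refine Nat.le_log_of_pow_le (by norm_num) ?_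
    exact (Nat.pow_le_pow_left hp.two_le _).trans (Nat.ordProj_le p ha)
  · rw [Nat.factorization_eq_zero_of_not_prime a hp]
    exact Nat.zero_le _

lemma cop_nm (c : ℕ) (S : Finset ℕ) (hS : ∀ p ∈ S, p.Coprime c) (m : ℕ → ℤ) :
    Nat.Coprime (nm S m) c :=
  Nat.Coprime.prod_left (fun p hp => Nat.Coprime.pow_left _ (hS p hp))

lemma not_dvd_nm (c t : ℕ) (S : Finset ℕ) (hS : ∀ p ∈ S, p.Coprime c) (m : ℕ → ℤ)
    (ht : t.Prime) (htc : t ∣ c) : ¬ t ∣ nm S m := by
  intro h
  have := Nat.dvd_gcd h htc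
  rw [(cop_nm c S hS m).gcd_eq_one] at this
  exact ht.one_lt.ne' (Nat.dvd_one.1 this)

end H62EHB
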