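import Pool.Agent.H62.EHB.Main

/-!
# A weak effective height bound for `a + b = c`

The logarithm of the height is at most `exp (C (1 + log rad)²)`.  (This is known mathematics, much
weaker than the theorem of Stewart and Yu; it is a tool.)
-/

set_option autoImplicit false

namespace H62EHB

open Finset

/-- The weak effective height bound. -/
def EHBStmt : Prop :=
  ∃ C : ℝ, ∀ a b : ℕ, 1 ≤ a → 1 ≤ b → Nat.Coprime a b →
    Real.log ((a + b : ℕ) : ℝ) ≤
      Real.exp (C * (1 + Real.log ((∏ p ∈ (a * b * (a + b)).primeFactors, p : ℕ) : ℝ)) ^ 2)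

theorem ehb : EHBStmt := by
  refine ⟨2500, ?_⟩
  intro a b ha hb hab
  obtain ⟨c, hc⟩ : ∃ c, c = a + b := ⟨_, rfl⟩
  obtain ⟨ρ, hρ⟩ : ∃ ρ, ρ = ∏ p ∈ (a * b * (a + b)).primeFactors, p := ⟨_, rfl⟩
  rw [← hρ, ← hc]
  have hn0 : a * b * (a + b) ≠ 0 := mul_ne_zero (mul_ne_zero (by omega) (by omega)) (by omega)
  have hρ1 : 1 ≤ ρ := by
    rw [hρ]
    exact Nat.one_le_iff_ne_zero.2 (Finset.prod_ne_zero_iff.2
      (fun t ht => (Nat.prime_of_mem_primeFactors ht).ne_zero))
  have hρR : (1 : ℝ) ≤ ρ := by exact_mod_cast hρ1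
  obtain ⟨ℓ, hℓ⟩ : ∃ ℓ, ℓ = Real.log (ρ : ℝ) := ⟨_, rfl⟩
  have hℓ0 : 0 ≤ ℓ := hℓ ▸ Real.log_nonneg hρR
  rw [← hℓ]
  obtain ⟨y, hy⟩ : ∃ y, y = 1 + ℓ := ⟨_, rfl⟩
  rw [← hy]
  have hy1 : 1 ≤ y := by linarith
  have hlog2 := Real.log_two_lt_d9
  have hlog2' := Real.log_two_gt_d9
  rcases Nat.lt_or_ge c 3 with hc3 | hc3
  · have hc2 : c = 2 := by omega
    rw [hc2]
    have h1 : (1 : ℝ) ≤ Real.exp (2500 * y ^ 2) := Real.one_le_exp (by positivity)
    push_cast
    linarith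
  obtain ⟨S, hS⟩ : ∃ S, S = (a * b).primeFactors := ⟨_, rfl⟩
  obtain ⟨r, hr⟩ : ∃ r, r = ∏ t ∈ c.primeFactors, t := ⟨_, rfl⟩
  have hSsub : S ⊆ (a * b * (a + b)).primeFactors := by
    rw [hS]
    exact Nat.primeFactors_mono (Nat.dvd_mul_right _ _) hn0
  have hTsub : c.primeFactors ⊆ (a * b * (a + b)).primeFactors := by
    rw [hc]
    exact Nat.primeFactors_mono (Nat.dvd_mul_left _ _) hn0
  have hprime : ∀ p ∈ (a * b * (a + b)).primeFactors, p.Prime :=
    fun p hp => Nat.prime_of_mem_primeFactors hp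
  have hrρ : r ≤ ρ := by
    rw [hr, hρ]
    exact Finset.prod_le_prod_of_subset_of_one_le' hTsub
      (fun p hp _ => (hprime p hp).one_le)
  have hr1 : 1 ≤ r := by
    rw [hr]
    exact Nat.one_le_iff_ne_zero.2 (Finset.prod_ne_zero_iff.2
      (fun t ht => (Nat.prime_of_mem_primeFactors ht).ne_zero))
  have hSl : ∑ p ∈ S, Real.log (p : ℝ) ≤ ℓ := by
    have h1 : ℓ = ∑ p ∈ (a * b * (a + b)).primeFactors, Real.log (p : ℝ) := by
      rw [hℓ, hρ]
      push_cast
      exact Real.log_prod (fun p hp => by exact_mod_cast (hprime p hp).ne_zero)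
    rw [h1]
    exact Finset.sum_le_sum_of_subset_of_nonneg hSsub
      (fun p _ _ => Real.log_natCast_nonneg p)
  have hScard : (S.card : ℝ) ≤ 2 * y := by
    have h1 : ∑ p ∈ S, Real.log (2 : ℝ) ≤ ∑ p ∈ S, Real.log (p : ℝ) := by
      refine Finset.sum_le_sum (fun p hp => ?_)
      apply Real.log_le_log (by norm_num)
      exact_mod_cast (hprime p (hSsub hp)).two_le
    rw [Finset.sum_const, nsmul_eq_mul] at h1
    have h2 : (0 : ℝ) ≤ S.card := by positivity
    nlinarith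
  obtain ⟨L, hL⟩ : ∃ L, L = ⌈ℓ⌉₊ + 1 := ⟨_, rfl⟩
  have hLl : ℓ ≤ L := by
    rw [hL]
    push_cast
    have := Nat.le_ceil ℓ
    linarith
  have hLu : (L : ℝ) ≤ ℓ + 2 := by
    rw [hL]
    push_cast
    have := Nat.ceil_lt_add_one hℓ0
    linarith
  obtain ⟨D, hD⟩ : ∃ D, D = 10 * L := ⟨_, rfl⟩
  obtain ⟨Q, hQ⟩ : ∃ Q, Q = D ^ S.card * r ^ 1200 := ⟨_, rfl⟩
  have hD0 : 0 < D := by omega
  have hQ0 : 0 < Q := by
    rw [hQ]
    exact Nat.mul_pos (pow_pos hD0 _) (pow_pos (by omega) _)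
  have hV : Nat.log 2 c / 1200 < 12000 * r * D * Q ^ 2 := by
    by_contra hcon
    push Not at hcon
    exact contra a b c ha hb hab hc.symm hc3 r L D Q _ hr (by omega)
      (by rw [← hS]; exact hSl.trans hLl) hD (by rw [← hS]; exact hQ) rfl hcon
  -- the logarithm of `c`
  have hB : Nat.log 2 c + 1 ≤ 1200 * (12000 * r * D * Q ^ 2) := by
    have h1 := Nat.div_add_mod (Nat.log 2 c) 1200
    have h2 := Nat.mod_lt (Nat.log 2 c) (show 1200 > 0 by norm_num)
    have h3 : 1200 * (Nat.log 2 c / 1200 + 1) ≤ 1200 * (12000 * r * D * Q ^ 2) :=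
      Nat.mul_le_mul_left _ hV
    omega
  have hcl : Real.log (c : ℝ) ≤ 1200 * (12000 * r * D * Q ^ 2) := by
    have h1 : c < 2 ^ (Nat.log 2 c + 1) := Nat.lt_pow_succ_log_self (by norm_num) c
    have h2 : Real.log (c : ℝ) ≤ Real.log ((2 : ℝ) ^ (Nat.log 2 c + 1)) := by
      apply Real.log_le_log (by exact_mod_cast (by omega : 0 < c))
      exact_mod_cast h1.le
    rw [Real.log_pow] at h2
    have h3 : ((Nat.log 2 c + 1 : ℕ) : ℝ) ≤ ((1200 * (12000 * r * D * Q ^ 2) : ℕ) : ℝ) := by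
      exact_mod_cast hB
    push_cast at h2 h3
    have h4 : (0 : ℝ) ≤ (Nat.log 2 c : ℝ) + 1 := by positivity
    nlinarith
  refine hcl.trans ?_
  have hrR : (0 : ℝ) < r := by exact_mod_cast hr1
  have hDR : (0 : ℝ) < D := by exact_mod_cast hD0
  have hQR : (0 : ℝ) < Q := by exact_mod_cast hQ0
  have hB0 : (0 : ℝ) < 1200 * (12000 * r * D * Q ^ 2) := by positivity
  rw [← Real.exp_log hB0]
  apply Real.exp_le_exp.2
  have e1 : Real.log (1200 * (12000 * (r : ℝ) * D * Q ^ 2)) =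
      Real.log 14400000 + Real.log r + Real.log D + 2 * Real.log Q := by
    rw [show 1200 * (12000 * (r : ℝ) * D * Q ^ 2) = 14400000 * r * D * Q ^ 2 by ring,
      Real.log_mul (by positivity) (by positivity), Real.log_mul (by positivity) hDR.ne',
      Real.log_mul (by norm_num) hrR.ne', Real.log_pow]
    push_cast
    ring
  rw [e1]
  have b0 : Real.log 14400000 ≤ 17 := by
    have h1 : Real.log (14400000 : ℝ) ≤ Real.log ((2 : ℝ) ^ 24) :=
      Real.log_le_log (by norm_num) (by norm_num)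
    rw [Real.log_pow] at h1
    push_cast at h1
    linarith
  have b1 : Real.log (r : ℝ) ≤ y := by
    have h1 : Real.log (r : ℝ) ≤ Real.log (ρ : ℝ) := by
      apply Real.log_le_log hrR
      exact_mod_cast hrρ
    rw [← hℓ] at h1
    linarith
  have b2 : Real.log (D : ℝ) ≤ 5 * y := by
    have h1 : Real.log (D : ℝ) = Real.log 10 + Real.log (L : ℝ) := by
      rw [hD]
      push_cast
      rw [Real.log_mul (by norm_num) (by
        have : 0 < L := by omega
        positivity)]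
    have h2 : Real.log (10 : ℝ) ≤ 3 := by
      have h3 : Real.log (10 : ℝ) ≤ Real.log ((2 : ℝ) ^ 4) :=
        Real.log_le_log (by norm_num) (by norm_num)
      rw [Real.log_pow] at h3
      push_cast at h3
      linarith
    have h3 : Real.log (L : ℝ) ≤ L - 1 := Real.log_le_sub_one_of_pos (by
      have : 0 < L := by omega
      positivity)
    rw [h1]
    linarith
  have b3 : Real.log (Q : ℝ) ≤ 1210 * y ^ 2 := by
    rw [hQ]
    push_cast
    rw [Real.log_mul (by positivity) (by positivity), Real.log_pow, Real.log_pow]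
    push_cast
    have h1 : (S.card : ℝ) * Real.log D ≤ 2 * y * (5 * y) := by
      have h2 : 0 ≤ Real.log (D : ℝ) := Real.log_natCast_nonneg D
      have h3 : (0 : ℝ) ≤ S.card := by positivity
      exact mul_le_mul hScard b2 h2 (by positivity)
    have h2 : y ≤ y ^ 2 := by nlinarith
    nlinarith
  have h2 : y ≤ y ^ 2 := by nlinarith
  have h3 : 1 ≤ y ^ 2 := by nlinarith
  linarith

end H62EHB
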