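import Mathlib

/-!
# Exponent vectors

For a finite set `S` of primes and an exponent vector `m`, `nm S m` is the numerator of
`∏ p ^ m p`, `nm S (-m)` is its denominator, and `Phi n S m` is its class modulo `n`.
-/

set_option autoImplicit false

namespace H62EHB

open Finset

/-- The unit of `ZMod n` given by `p`. -/
noncomputable def U (n p : ℕ) : (ZMod n)ˣ :=
  if h : p.Coprime n then ZMod.unitOfCoprime p h else 1

/-- The class of `∏ p ^ m p` modulo `n`. -/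
noncomputable def Phi (n : ℕ) (S : Finset ℕ) (m : ℕ → ℤ) : (ZMod n)ˣ := ∏ p ∈ S, U n p ^ m p

/-- The numerator of `∏ p ^ m p`. -/
def nm (S : Finset ℕ) (m : ℕ → ℤ) : ℕ := ∏ p ∈ S, p ^ (m p).toNat

lemma U_val (n p : ℕ) (h : p.Coprime n) : ((U n p : (ZMod n)ˣ) : ZMod n) = (p : ZMod n) := by
  rw [U, dif_pos h, ZMod.coe_unitOfCoprime]

lemma Phi_add (n : ℕ) (S : Finset ℕ) (m m' : ℕ → ℤ) :
    Phi n S (m + m') = Phi n S m * Phi n S m' := by
  rw [Phi, Phi, Phi, ← Finset.prod_mul_distrib]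
  exact Finset.prod_congr rfl (fun p _ => by rw [Pi.add_apply, zpow_add])

lemma Phi_sub (n : ℕ) (S : Finset ℕ) (m m' : ℕ → ℤ) :
    Phi n S (m - m') = Phi n S m / Phi n S m' := by
  rw [Phi, Phi, Phi, ← Finset.prod_div_distrib]
  exact Finset.prod_congr rfl (fun p _ => by rw [Pi.sub_apply, zpow_sub, div_eq_mul_inv])

lemma Phi_smul (n : ℕ) (S : Finset ℕ) (g : ℕ) (m : ℕ → ℤ) :
    Phi n S (fun p => g * m p) = Phi n S m ^ g := by
  rw [Phi, Phi, ← Finset.prod_pow]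
  exact Finset.prod_congr rfl (fun p _ => by rw [mul_comm, zpow_mul, zpow_natCast])

lemma nm_pos (S : Finset ℕ) (hS : ∀ p ∈ S, p.Prime) (m : ℕ → ℤ) : 0 < nm S m :=
  Finset.prod_pos (fun p hp => pow_pos (hS p hp).pos _)

lemma nm_eq (n : ℕ) (S : Finset ℕ) (hS : ∀ p ∈ S, p.Coprime n) (m : ℕ → ℤ) :
    ((nm S m : ℕ) : ZMod n) = (Phi n S m : (ZMod n)ˣ) * ((nm S (-m) : ℕ) : ZMod n) := by
  rw [nm, nm, Phi]
  push_cast
  rw [← Finset.prod_mul_distrib]
  refine Finset.prod_congr rfl (fun p hp => ?_)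
  rw [← U_val n p (hS p hp), ← Units.val_pow_eq_pow_val, ← Units.val_pow_eq_pow_val,
    ← Units.val_mul]
  congr 1
  rw [← zpow_natCast, ← zpow_natCast, ← zpow_add]
  congr 1
  rw [Pi.neg_apply]
  rcases le_total 0 (m p) with h | h
  · rw [Int.toNat_of_nonneg h, Int.toNat_of_nonpos (by omega)]
    simp
  · rw [Int.toNat_of_nonpos h, Int.toNat_of_nonneg (by omega)]
    simp

lemma isUnit_nm (n : ℕ) (S : Finset ℕ) (hS : ∀ p ∈ S, p.Coprime n) (m : ℕ → ℤ) :
    IsUnit ((nm S m : ℕ) : ZMod n) := by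
  rw [ZMod.isUnit_iff_coprime, nm]
  exact Nat.Coprime.prod_left (fun p hp => Nat.Coprime.pow_left _ (hS p hp))

lemma Phi_eq_one_iff (n : ℕ) (S : Finset ℕ) (hS : ∀ p ∈ S, p.Coprime n) (m : ℕ → ℤ) :
    Phi n S m = 1 ↔ (n : ℤ) ∣ (nm S m : ℤ) - nm S (-m) := by
  rw [← ZMod.intCast_zmod_eq_zero_iff_dvd]
  push_cast
  rw [nm_eq n S hS m, sub_eq_zero]
  constructor
  · intro h
    rw [h, Units.val_one, one_mul]
  · intro h
    have h1 : ((Phi n S m : (ZMod n)ˣ) : ZMod n) * ((nm S (-m) : ℕ) : ZMod n) =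
        1 * ((nm S (-m) : ℕ) : ZMod n) := by
      rw [one_mul]
      exact h
    have h2 := (isUnit_nm n S hS (-m)).mul_right_cancel h1
    exact Units.ext (by rw [h2, Units.val_one])

/-- Dirichlet's theorem with a congruence. -/
theorem dirich (S : Finset ℕ) (e : ℕ → ℤ) (V D P : ℕ) (hV : 0 < V) (hD : 0 < D) (hP : 0 < P) :
    ∃ (j : ℕ) (m : ℕ → ℤ), 1 ≤ j ∧ j ≤ D ^ S.card * P ∧
      (∀ p ∈ S, (D : ℤ) * |j * e p - V * m p| ≤ V) ∧ Phi P S m = 1 := by
  classical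
  have : NeZero P := ⟨hP.ne'⟩
  have hV' : (0 : ℤ) < V := by exact_mod_cast hV
  have hD' : (0 : ℤ) < D := by exact_mod_cast hD
  let fl : ℕ → ℕ → ℤ := fun j p => (j * e p) / V
  let bx : ℕ → ℕ → ℕ := fun j p => ((D * ((j * e p) % V)) / V).toNat
  have hr0 : ∀ j p, 0 ≤ ((j : ℤ) * e p) % V := fun j p => Int.emod_nonneg _ hV'.ne'
  have hr1 : ∀ j p, ((j : ℤ) * e p) % V < V := fun j p => Int.emod_lt_of_pos _ hV'
  have hb0 : ∀ j p, 0 ≤ ((D : ℤ) * (((j : ℤ) * e p) % V)) / V := fun j p =>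
    Int.ediv_nonneg (mul_nonneg hD'.le (hr0 j p)) hV'.le
  have hbx : ∀ j p, bx j p < D := by
    intro j p
    have h1 : ((D : ℤ) * (((j : ℤ) * e p) % V)) / V < D := by
      apply Int.ediv_lt_of_lt_mul hV'
      exact mul_lt_mul_of_pos_left (hr1 j p) hD'
    have h2 := hb0 j p
    simp only [bx]
    omega
  let F : Fin (D ^ S.card * P + 1) → (S → Fin D) × (ZMod P)ˣ := fun j =>
    (fun p => ⟨bx j p, hbx j p⟩, Phi P S (fl j))
  have hcard : Fintype.card ((S → Fin D) × (ZMod P)ˣ) < Fintype.card (Fin (D ^ S.card * P + 1)) := by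
    rw [Fintype.card_prod, Fintype.card_fun, Fintype.card_fin, Fintype.card_fin,
      Fintype.card_coe, ZMod.card_units_eq_totient]
    have := Nat.totient_le P
    exact Nat.lt_succ_of_le (Nat.mul_le_mul_left _ this)
  obtain ⟨j1, j2, hne, hF⟩ := Fintype.exists_ne_map_eq_of_card_lt F hcard
  have key : ∀ j1 j2 : ℕ, j1 < j2 → j2 ≤ D ^ S.card * P → (∀ p ∈ S, bx j1 p = bx j2 p) →
      Phi P S (fl j1) = Phi P S (fl j2) →
      ∃ (j : ℕ) (m : ℕ → ℤ), 1 ≤ j ∧ j ≤ D ^ S.card * P ∧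
      (∀ p ∈ S, (D : ℤ) * |j * e p - V * m p| ≤ V) ∧ Phi P S m = 1 := by
    intro j1 j2 h12 h2 hb hPhi
    refine ⟨j2 - j1, fl j2 - fl j1, by omega, by omega, ?_, ?_⟩
    · intro p hp
      have e1 := Int.emod_add_mul_ediv ((j1 : ℤ) * e p) V
      have e2 := Int.emod_add_mul_ediv ((j2 : ℤ) * e p) V
      have e3 : (((j2 - j1 : ℕ) : ℤ)) = (j2 : ℤ) - j1 := by
        push_cast [Nat.cast_sub h12.le]
        ring
      have e4 : ((j2 - j1 : ℕ) : ℤ) * e p - V * (fl j2 - fl j1) p =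
          ((j2 : ℤ) * e p) % V - ((j1 : ℤ) * e p) % V := by
        simp only [fl, Pi.sub_apply]
        rw [e3]
        linear_combination e1 - e2
      rw [e4]
      have h3 := hb p hp
      have h4 : ((D : ℤ) * (((j1 : ℤ) * e p) % V)) / V = ((D : ℤ) * (((j2 : ℤ) * e p) % V)) / V := by
        have a1 := hb0 j1 p
        have a2 := hb0 j2 p
        simp only [bx] at h3
        omega
      have d1 := Int.emod_add_mul_ediv ((D : ℤ) * (((j1 : ℤ) * e p) % V)) V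
      have d2 := Int.emod_add_mul_ediv ((D : ℤ) * (((j2 : ℤ) * e p) % V)) V
      have d3 := Int.emod_nonneg ((D : ℤ) * (((j1 : ℤ) * e p) % V)) hV'.ne'
      have d4 := Int.emod_nonneg ((D : ℤ) * (((j2 : ℤ) * e p) % V)) hV'.ne'
      have d5 := Int.emod_lt_of_pos ((D : ℤ) * (((j1 : ℤ) * e p) % V)) hV'
      have d6 := Int.emod_lt_of_pos ((D : ℤ) * (((j2 : ℤ) * e p) % V)) hV'
      rw [h4] at d1
      have d7 : (D : ℤ) * |((j2 : ℤ) * e p) % V - ((j1 : ℤ) * e p) % V| =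
          |(D : ℤ) * (((j2 : ℤ) * e p) % V - ((j1 : ℤ) * e p) % V)| := by
        rw [abs_mul, abs_of_pos hD']
      rw [d7, abs_le]
      constructor
      · linarith
      · linarith
    · rw [Phi_sub, hPhi, div_self']
  rw [Prod.ext_iff] at hF
  obtain ⟨hF1, hF2⟩ := hF
  have hF1' : ∀ p ∈ S, bx j1 p = bx j2 p := by
    intro p hp
    have := congrFun hF1 ⟨p, hp⟩
    simpa [F] using this
  rcases lt_or_gt_of_ne (fun h => hne (Fin.ext h)) with h | h
  · exact key j1 j2 h (by omega) hF1' hF2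
  · exact key j2 j1 h (by omega) (fun p hp => (hF1' p hp).symm) hF2.symm

end H62EHB
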