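import Pool.Agent.H62.EHB.CoreG
import Pool.Agent.H62.EHB.Vec

/-!
# The core, specialised and in logarithmic form
-/

set_option autoImplicit false

namespace H62EHB

open Finset

lemma log_three_le : Real.log 3 ≤ 1.6 * Real.log 2 := by
  have h1 : Real.log ((3 : ℝ) ^ 5) ≤ Real.log ((2 : ℝ) ^ 8) :=
    Real.log_le_log (by norm_num) (by norm_num)
  rw [Real.log_pow, Real.log_pow] at h1
  push_cast at h1
  linarith

theorem core1 (T : Finset ℕ) (g M n p q : ℕ) (a c : ℤ) (μ x : ℕ → ℕ) (hT : ∀ t ∈ T, t.Prime)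
    (hg : 12 * M ≤ g) (hg2 : g ≤ 24 * M) (hM : 1 ≤ M) (hn : 2 ≤ n) (hp : 0 < p) (hq : 0 < q)
    (hpq : p ≠ q) (ha : a ≠ 0) (hc : c ≠ 0)
    (hall : ∀ t ∈ T, ¬ t ∣ g ∧ ¬ t ∣ q ∧ ¬ (t : ℤ) ∣ c ∧ 1 ≤ μ t ∧ ((t : ℤ) ^ μ t) ∣ (p : ℤ) - q ∧
      (t : ℤ) ∣ a - c ∧ ((t : ℤ) ^ x t) ∣ a ^ g * (q : ℤ) - c ^ g * (p : ℤ) ∧
      x t ≤ μ t * (M * n)) :
    ∑ t ∈ T, (x t : ℝ) * Real.log t ≤ 4 * Real.log (M * (4 * n + 1)) + 70 * (M * n) +
      4 * n * Real.log (max p q : ℝ) + M * Real.log (max |(a : ℝ)| |(c : ℝ)|) := by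
  have hMn : M ≤ M * n := Nat.le_mul_of_pos_right _ (by omega)
  have hMn2 : 2 * M ≤ M * n := by
    rw [mul_comm 2 M]
    exact Nat.mul_le_mul_left _ hn
  have hgn : g * n ≤ 24 * M * n := Nat.mul_le_mul_right _ hg2
  have h := coreG T g 1 M (4 * n) (3 * (M * n)) (M * n + 2 * M) p q 12 (9 * (M * n)) a c μ x hT
    (by omega) (Nat.coprime_one_left g) (by norm_num)
    (by
      have : g * (4 * n) = 4 * (g * n) := by ring
      rw [this]
      have h2 : 24 * M * n = 24 * (M * n) := by ring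
      omega)
    hM (by omega)
    (by
      have : M * (4 * n) = 4 * (M * n) := by ring
      omega)
    (by
      have : M * (4 * n) = 4 * (M * n) := by ring
      omega)
    (by omega) hp hq hpq ha hc
    (by
      intro t ht
      obtain ⟨k1, k2, k3, k4, k5, k6, k7, k8⟩ := hall t ht
      refine ⟨k1, k2, k3, k4, k5, k6, by rw [pow_one, pow_one]; exact k7, k8.trans ?_⟩
      exact Nat.mul_le_mul_left _ (by omega))
  have hP : (1 : ℝ) ≤ max (p : ℝ) (q : ℝ) := le_max_of_le_left (by exact_mod_cast hp)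
  have hA : (1 : ℝ) ≤ max |(a : ℝ)| |(c : ℝ)| := by
    apply le_max_of_le_left
    have : (1 : ℤ) ≤ |a| := Int.one_le_abs ha
    exact_mod_cast this
  have hM' : (1 : ℝ) ≤ M := by exact_mod_cast hM
  have hn' : (2 : ℝ) ≤ n := by exact_mod_cast hn
  have ht0 : ∀ t ∈ T, (0 : ℝ) < t := fun t ht => by exact_mod_cast (hT t ht).pos
  have hl := Real.log_le_log (Finset.prod_pos (fun t ht => pow_pos (ht0 t ht) _)) h
  have e1 : Real.log (∏ t ∈ T, (t : ℝ) ^ x t) = ∑ t ∈ T, (x t : ℝ) * Real.log t := by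
    rw [Real.log_prod (fun t ht => (pow_pos (ht0 t ht) _).ne')]
    exact Finset.sum_congr rfl (fun t _ => Real.log_pow _ _)
  rw [e1] at hl
  refine hl.trans ?_
  have hB0 : (0 : ℝ) < M * (4 * n + 1) := by positivity
  have e2 : Real.log (((M : ℝ) * ((4 * n : ℕ) + 1) * (((12 : ℕ) : ℝ) ^ (3 * (M * n)) *
      3 ^ (9 * (M * n)))) ^ 4 * (max (p : ℝ) (q : ℝ)) ^ (4 * n) *
      (max |(a : ℝ)| |(c : ℝ)|) ^ M) =
      4 * (Real.log (M * (4 * n + 1)) + (3 * (M * n) * Real.log 12 + 9 * (M * n) * Real.log 3)) +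
      4 * n * Real.log (max (p : ℝ) (q : ℝ)) + M * Real.log (max |(a : ℝ)| |(c : ℝ)|) := by
    push_cast
    have z1 : (0 : ℝ) < 12 ^ (3 * (M * n)) * 3 ^ (9 * (M * n)) := by positivity
    have z2 : (0 : ℝ) < (M * (4 * n + 1) * (12 ^ (3 * (M * n)) * 3 ^ (9 * (M * n)))) ^ 4 := by
      positivity
    have z3 : (0 : ℝ) < (max (p : ℝ) (q : ℝ)) ^ (4 * n) := by positivity
    have z4 : (0 : ℝ) < (max |(a : ℝ)| |(c : ℝ)|) ^ M := by positivity
    have z5 : Real.log ((12 : ℝ) ^ (3 * (M * n)) * 3 ^ (9 * (M * n))) =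
        3 * (M * n) * Real.log 12 + 9 * (M * n) * Real.log 3 := by
      rw [Real.log_mul (by positivity) (by positivity), Real.log_pow, Real.log_pow]
      push_cast
      ring
    rw [Real.log_mul (mul_pos z2 z3).ne' z4.ne', Real.log_mul z2.ne' z3.ne',
      Real.log_pow, Real.log_pow, Real.log_pow, Real.log_mul hB0.ne' z1.ne', z5]
    push_cast
    ring
  rw [e2]
  have hl12 : Real.log 12 = 2 * Real.log 2 + Real.log 3 := by
    rw [show (12 : ℝ) = 2 ^ 2 * 3 by norm_num, Real.log_mul (by norm_num) (by norm_num),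
      Real.log_pow]
    push_cast
    ring
  have hl2 := Real.log_two_lt_d9
  have hl3 := log_three_le
  have hMn0 : (0 : ℝ) ≤ M * n := by positivity
  have h5 : 4 * (3 * ((M : ℝ) * n) * Real.log 12 + 9 * (M * n) * Real.log 3) ≤ 70 * (M * n) := by
    rw [hl12]
    have h6 : 24 * Real.log 2 + 48 * Real.log 3 ≤ 70 := by linarith
    nlinarith
  linarith

end H62EHB
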