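import Pool.Agent.H62.EHB.Contra

/-!
# A weak effective height bound: the main argument
-/

set_option autoImplicit false

namespace H62EHB

open Finset

lemma prod_dvd_int (T : Finset ℕ) (hT : ∀ t ∈ T, t.Prime) (x : ℕ → ℕ) (z : ℤ)
    (h : ∀ t ∈ T, (t : ℤ) ^ x t ∣ z) : ((∏ t ∈ T, t ^ x t : ℕ) : ℤ) ∣ z := by
  rw [Int.natCast_dvd]
  refine Finset.prod_dvd_of_isRelPrime ?_ ?_
  · intro t ht s hs hts
    rw [Function.onFun, ← Nat.coprime_iff_isRelPrime]
    exact Nat.Coprime.pow _ _ ((Nat.coprime_primes (hT t ht) (hT s hs)).mpr hts)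
  · intro t ht
    have := h t ht
    rw [← Int.natCast_dvd]
    push_cast
    exact this

theorem contra (a b c : ℕ) (ha : 1 ≤ a) (hb : 1 ≤ b) (hab : Nat.Coprime a b) (hc : a + b = c)
    (h3 : 3 ≤ c) (r L D Q V : ℕ) (hr : r = ∏ t ∈ c.primeFactors, t) (hL1 : 1 ≤ L)
    (hL : ∑ p ∈ (a * b).primeFactors, Real.log (p : ℝ) ≤ L) (hD : D = 10 * L)
    (hQ : Q = D ^ (a * b).primeFactors.card * r ^ 1200) (hV : V = Nat.log 2 c / 1200)
    (hbig : 12000 * r * D * Q ^ 2 ≤ V) : False := by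
  classical
  have ha0 : a ≠ 0 := by omega
  have hb0 : b ≠ 0 := by omega
  have hc0 : c ≠ 0 := by omega
  obtain ⟨S, hSdef⟩ : ∃ S, S = (a * b).primeFactors := ⟨_, rfl⟩
  obtain ⟨T, hTdef⟩ : ∃ T, T = c.primeFactors := ⟨_, rfl⟩
  rw [← hSdef] at hL hQ
  rw [← hTdef] at hr
  have hS : ∀ p ∈ S, p.Prime := fun p hp => by
    rw [hSdef] at hp
    exact Nat.prime_of_mem_primeFactors hp
  have hT : ∀ t ∈ T, t.Prime := fun p hp => by
    rw [hTdef] at hp
    exact Nat.prime_of_mem_primeFactors hp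
  have hTc : ∀ t ∈ T, t ∣ c := fun p hp => by
    rw [hTdef] at hp
    exact Nat.dvd_of_mem_primeFactors hp
  have hSc : ∀ p ∈ S, p.Coprime c := by
    intro p hp
    have hpp := hS p hp
    rw [hpp.coprime_iff_not_dvd]
    intro hpc
    rw [hSdef] at hp
    have hpab := Nat.dvd_of_mem_primeFactors hp
    have h1 : p ∣ a ∧ p ∣ b := by
      rcases hpp.dvd_mul.1 hpab with h | h
      · exact ⟨h, (Nat.dvd_add_right h).1 (hc ▸ hpc)⟩
      · exact ⟨(Nat.dvd_add_left h).1 (hc ▸ hpc), h⟩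
    have := Nat.dvd_gcd h1.1 h1.2
    rw [hab.gcd_eq_one] at this
    exact hpp.one_lt.ne' (Nat.dvd_one.1 this)
  -- the exponents
  obtain ⟨x, hx⟩ : ∃ x : ℕ → ℕ, x = fun t => c.factorization t := ⟨_, rfl⟩
  obtain ⟨μ, hμ⟩ : ∃ μ : ℕ → ℕ, μ = fun t => min (x t) 1200 := ⟨_, rfl⟩
  have hcx : ∏ t ∈ T, t ^ x t = c := by
    rw [hx, hTdef]
    exact Nat.factorization_prod_pow_eq_self hc0
  have hx1 : ∀ t ∈ T, 1 ≤ x t := by
    intro t ht
    rw [hx]
    exact (hT t ht).factorization_pos_of_dvd hc0 (hTc t ht)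
  obtain ⟨P, hP⟩ : ∃ P, P = ∏ t ∈ T, t ^ μ t := ⟨_, rfl⟩
  have hPc : P ∣ c := by
    rw [hP, ← hcx]
    refine Finset.prod_dvd_prod_of_dvd _ _ (fun t ht => pow_dvd_pow _ ?_)
    rw [hμ]
    exact min_le_left _ _
  have hP0 : 0 < P := Nat.pos_of_dvd_of_pos hPc (by omega)
  have hPr : P ≤ r ^ 1200 := by
    rw [hP, hr, ← Finset.prod_pow]
    refine Finset.prod_le_prod' (fun t ht => Nat.pow_le_pow_right (hT t ht).pos ?_)
    rw [hμ]
    exact min_le_right _ _
  have hr1 : 1 ≤ r := by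
    rw [hr]
    exact Nat.one_le_iff_ne_zero.2 (Finset.prod_ne_zero_iff.2 (fun t ht => (hT t ht).ne_zero))
  have hSP : ∀ p ∈ S, p.Coprime P := fun p hp => (hSc p hp).coprime_dvd_right hPc
  have hD0 : 0 < D := by omega
  have hQ1 : 1 ≤ Q := by
    rw [hQ]
    exact Nat.one_le_iff_ne_zero.2 (mul_ne_zero (pow_ne_zero _ hD0.ne') (pow_ne_zero _ (by omega)))
  -- the first relation
  have hcdvd : (c : ℤ) ∣ ((a ^ 2 : ℕ) : ℤ) - (b ^ 2 : ℕ) := by
    refine ⟨(a : ℤ) - b, ?_⟩
    rw [← hc]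
    push_cast
    ring
  have he1 : nm S (ex a b) = a ^ 2 := by
    rw [hSdef]
    exact nm_sq a b ha0 hb0 hab
  have he2 : nm S (-(ex a b)) = b ^ 2 := by
    rw [ex_neg, hSdef, mul_comm a b]
    exact nm_sq b a hb0 ha0 hab.symm
  have hΦc : Phi c S (ex a b) = 1 := by
    rw [Phi_eq_one_iff c S hSc, he1, he2]
    exact hcdvd
  have hΦP : Phi P S (ex a b) = 1 := by
    rw [Phi_eq_one_iff P S hSP, he1, he2]
    exact (Int.natCast_dvd_natCast.2 hPc).trans hcdvd
  -- the size
  obtain ⟨H, hH⟩ : ∃ H, H = Nat.log 2 c := ⟨_, rfl⟩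
  rw [← hH] at hV
  have hrDQ : 1 ≤ r * D * Q ^ 2 :=
    Nat.one_le_iff_ne_zero.2 (mul_ne_zero (mul_ne_zero (by omega) (by omega))
      (pow_ne_zero _ (by omega)))
  have hbig' : 12000 * (r * D * Q ^ 2) ≤ V := by
    have e : 12000 * (r * D * Q ^ 2) = 12000 * r * D * Q ^ 2 := by ring
    omega
  have hV1 : 12000 ≤ V := by omega
  have hHV : H ≤ 2400 * V := by omega
  have hexH : ∀ p, |ex a b p| ≤ 2 * H := by
    intro p
    have h1 := fac_le_log a p ha0
    have h2 := fac_le_log b p hb0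
    have h3 : Nat.log 2 a ≤ H := by
      rw [hH]
      exact Nat.log_mono_right (by omega)
    have h4 : Nat.log 2 b ≤ H := by
      rw [hH]
      exact Nat.log_mono_right (by omega)
    rw [ex, abs_le]
    constructor <;> omega
  obtain ⟨j, m, hj1, hjQ, hjm, hΦm⟩ := dirich S (ex a b) V D P (by omega) hD0 hP0
  have hjQ' : j ≤ Q := by
    rw [hQ]
    exact hjQ.trans (Nat.mul_le_mul_left _ hPr)
  -- the exponent g
  obtain ⟨v, hv⟩ : ∃ v, v = V / j := ⟨_, rfl⟩
  obtain ⟨g, hg⟩ : ∃ g, g = r * ((v - 1) / r) + 1 := ⟨_, rfl⟩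
  have hQV : 12000 * r * D * Q * j ≤ V := by
    calc 12000 * r * D * Q * j ≤ 12000 * r * D * Q * Q := Nat.mul_le_mul_left _ hjQ'
      _ = 12000 * r * D * Q ^ 2 := by ring
      _ ≤ V := hbig
  have hrj : 12000 * (r * j) ≤ V := by
    calc 12000 * (r * j) = 12000 * r * j := by ring
      _ ≤ 12000 * r * j * (D * Q) := Nat.le_mul_of_pos_right _ (Nat.mul_pos hD0 (by omega))
      _ = 12000 * r * D * Q * j := by ring
      _ ≤ V := hQV
  have hjV : j ≤ V := by
    have : j ≤ r * j := Nat.le_mul_of_pos_left _ (by omega)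
    omega
  have hv1 : 1 ≤ v := by
    rw [hv]
    exact (Nat.one_le_div_iff (by omega)).2 hjV
  have hvj : v * j ≤ V := by
    rw [hv]
    exact Nat.div_mul_le_self V j
  have hvj2 : V < (v + 1) * j := by
    rw [hv]
    have := Nat.lt_div_mul_add (a := V) (b := j) (by omega)
    linarith
  have hdm := Nat.div_add_mod (v - 1) r
  have hml := Nat.mod_lt (v - 1) (show r > 0 by omega)
  have hgv : g ≤ v := by omega
  have hvg : v + 1 ≤ g + r := by omega
  have hgj : g * j ≤ V := (Nat.mul_le_mul_right _ hgv).trans hvj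
  have hVg : V ≤ g * j + r * j := by
    have := Nat.mul_le_mul_right j hvg
    have e : (g + r) * j = g * j + r * j := by ring
    omega
  have hV2g : V ≤ 2 * (g * j) := by omega
  have hg1 : 1 ≤ g := by omega
  have hg6000 : 6000 ≤ g := by
    by_contra hcon
    have h1 : g * j ≤ 5999 * j := Nat.mul_le_mul_right _ (by omega)
    have h2 : j ≤ r * j := Nat.le_mul_of_pos_left _ (by omega)
    omega
  have hgV : g ≤ V := (Nat.le_mul_of_pos_right _ (by omega)).trans hgj
  -- the exponents m, s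
  have hmb : ∀ p ∈ S, |m p| ≤ 4801 * j := by
    intro p hp
    have h1 := hjm p hp
    have h2 : |(j : ℤ) * ex a b p - V * m p| ≤ V := by
      have h4 : (1 : ℤ) ≤ D := by exact_mod_cast hD0
      have h5 := abs_nonneg ((j : ℤ) * ex a b p - V * m p)
      nlinarith
    have h3 : |(V : ℤ) * m p| ≤ V + j * (2 * H) := by
      have e : (V : ℤ) * m p = j * ex a b p - (j * ex a b p - V * m p) := by ring
      rw [e]
      refine (abs_sub _ _).trans ?_
      rw [abs_mul, Nat.abs_cast]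
      have h6 := mul_le_mul_of_nonneg_left (hexH p) (show (0 : ℤ) ≤ j by positivity)
      linarith
    rw [abs_mul, Nat.abs_cast] at h3
    have h7 : (H : ℤ) ≤ 2400 * V := by exact_mod_cast hHV
    have h8 : (1 : ℤ) ≤ j := by exact_mod_cast hj1
    have h9 : (12000 : ℤ) ≤ V := by exact_mod_cast hV1
    have h10 : (V : ℤ) * |m p| ≤ V * (4801 * j) := by
      have h11 : (j : ℤ) * (2 * H) ≤ j * (2 * (2400 * V)) :=
        mul_le_mul_of_nonneg_left (by linarith) (by linarith)
      have h12 : (V : ℤ) * 1 ≤ V * j := mul_le_mul_of_nonneg_left h8 (by linarith)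
      linarith
    exact le_of_mul_le_mul_left h10 (by linarith)
  obtain ⟨s, hs⟩ : ∃ s : ℕ → ℤ, s = fun p => ex a b p - g * m p := ⟨_, rfl⟩
  have hgm : ∀ p ∈ S, (g : ℤ) * m p = ex a b p - s p := by
    intro p _
    rw [hs]
    ring
  have hsb : ∀ p ∈ S, (D : ℤ) * |s p| ≤ 4 * g := by
    intro p hp
    have h8 : (0 : ℤ) < j := by exact_mod_cast hj1
    have e : (j : ℤ) * s p = (j * ex a b p - V * m p) + (V - g * j) * m p := by
      rw [hs]
      ring
    have h1 : (j : ℤ) * |s p| ≤ |(j : ℤ) * ex a b p - V * m p| + |((V : ℤ) - g * j) * m p| := by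
      rw [← Nat.abs_cast j, ← abs_mul, Nat.abs_cast, e]
      exact abs_add_le _ _
    have h2 : |((V : ℤ) - g * j) * m p| ≤ (r * j) * (4801 * j) := by
      rw [abs_mul]
      refine mul_le_mul ?_ (hmb p hp) (abs_nonneg _) (by positivity)
      rw [abs_le]
      have h3 : ((g * j : ℕ) : ℤ) ≤ V := by exact_mod_cast hgj
      have h4 : (V : ℤ) ≤ ((g * j + r * j : ℕ) : ℤ) := by exact_mod_cast hVg
      push_cast at h3 h4
      constructor
      · have h5 : (0 : ℤ) ≤ r * j := by positivity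
        linarith
      · linarith
    have h5 := hjm p hp
    have h6 : (D : ℤ) * ((r * j) * (4801 * j)) ≤ V := by
      have h7 : ((12000 * r * D * Q * j : ℕ) : ℤ) ≤ V := by exact_mod_cast hQV
      have h9 : (j : ℤ) ≤ Q := by exact_mod_cast hjQ'
      push_cast at h7
      have h10 : (D : ℤ) * r * j * j ≤ D * r * j * Q :=
        mul_le_mul_of_nonneg_left h9 (by positivity)
      have h11 : (0 : ℤ) ≤ D * r * j * j := by positivity
      linarith
    have h12 : (V : ℤ) ≤ 2 * (g * j) := by exact_mod_cast hV2g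
    have h13 : (D : ℤ) * (j * |s p|) ≤ D * (|(j : ℤ) * ex a b p - V * m p| + (r * j) * (4801 * j)) :=
      mul_le_mul_of_nonneg_left (by linarith) (by positivity)
    have h14 : (j : ℤ) * (D * |s p|) ≤ j * (4 * g) := by linarith
    exact le_of_mul_le_mul_left h14 h8
  have hsb' : ∀ p ∈ S, ((|s p| : ℤ) : ℝ) ≤ 4 * g / D := by
    intro p hp
    have hDR : (0 : ℝ) < D := by exact_mod_cast hD0
    rw [le_div_iff₀ hDR]
    have := hsb p hp
    have h1 : ((D * |s p| : ℤ) : ℝ) ≤ ((4 * g : ℤ) : ℝ) := by exact_mod_cast this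
    push_cast at h1 ⊢
    linarith
  -- the classes
  have hΦs : ∀ n, Phi n S s = Phi n S (ex a b) / Phi n S m ^ g := by
    intro n
    rw [← Phi_smul, ← Phi_sub, hs]
    rfl
  have hΦPs : Phi P S s = 1 := by rw [hΦs, hΦP, hΦm, one_pow, div_one]
  have hΦcs : Phi c S s * Phi c S m ^ g = 1 := by rw [hΦs, hΦc, one_div, inv_mul_cancel]
  obtain ⟨p, hp⟩ : ∃ p, p = nm S s := ⟨_, rfl⟩
  obtain ⟨q, hq⟩ : ∃ q, q = nm S (-s) := ⟨_, rfl⟩
  obtain ⟨W, hW⟩ : ∃ W, W = nm S m := ⟨_, rfl⟩
  obtain ⟨W', hW'⟩ : ∃ W', W' = nm S (-m) := ⟨_, rfl⟩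
  have hp0 : 0 < p := hp ▸ nm_pos S hS s
  have hq0 : 0 < q := hq ▸ nm_pos S hS (-s)
  have hW0 : 0 < W := hW ▸ nm_pos S hS m
  have hW'0 : 0 < W' := hW' ▸ nm_pos S hS (-m)
  have hPpq : (P : ℤ) ∣ (p : ℤ) - q := by
    rw [hp, hq]
    exact (Phi_eq_one_iff P S hSP s).1 hΦPs
  have hPW : (P : ℤ) ∣ (W : ℤ) - W' := by
    rw [hW, hW']
    exact (Phi_eq_one_iff P S hSP m).1 hΦm
  have hWm : (W : ZMod c) = (Phi c S m : (ZMod c)ˣ) * (W' : ZMod c) := by
    rw [hW, hW']
    exact nm_eq c S hSc m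
  have hps : (p : ZMod c) = (Phi c S s : (ZMod c)ˣ) * (q : ZMod c) := by
    rw [hp, hq]
    exact nm_eq c S hSc s
  have hu : ((Phi c S s : (ZMod c)ˣ) : ZMod c) * ((Phi c S m : (ZMod c)ˣ) : ZMod c) ^ g = 1 := by
    rw [← Units.val_pow_eq_pow_val, ← Units.val_mul, hΦcs, Units.val_one]
  have hcd : (c : ℤ) ∣ (W' : ℤ) ^ g * q - (W : ℤ) ^ g * p := by
    rw [← ZMod.intCast_zmod_eq_zero_iff_dvd]
    push_cast
    rw [hWm, hps, mul_pow]
    linear_combination (-(W' : ZMod c) ^ g * q) * hu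
  have htP : ∀ t ∈ T, (t : ℤ) ^ μ t ∣ (P : ℤ) := by
    intro t ht
    have h1 : t ^ μ t ∣ P := hP ▸ Finset.dvd_prod_of_mem (fun t => t ^ μ t) ht
    exact_mod_cast h1
  have hμ1 : ∀ t ∈ T, 1 ≤ μ t := by
    intro t ht
    have := hx1 t ht
    rw [hμ]
    simp only
    omega
  have htP' : ∀ t ∈ T, (t : ℤ) ∣ (P : ℤ) := fun t ht =>
    (dvd_pow_self _ (by have := hμ1 t ht; omega)).trans (htP t ht)
  have htg : ∀ t ∈ T, ¬ t ∣ g := by
    intro t ht h
    have h1 : t ∣ r := hr ▸ Finset.dvd_prod_of_mem (fun t => t) ht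
    rw [hg] at h
    have h2 : t ∣ 1 := (Nat.dvd_add_right (Dvd.dvd.mul_right h1 _)).1 h
    exact (hT t ht).one_lt.ne' (Nat.dvd_one.1 h2)
  have hxc : ∀ t ∈ T, (t : ℤ) ^ x t ∣ (c : ℤ) := by
    intro t ht
    have h1 : t ^ x t ∣ c := hcx ▸ Finset.dvd_prod_of_mem (fun t => t ^ x t) ht
    exact_mod_cast h1
  -- the heights
  have hDR : (0 : ℝ) < D := by exact_mod_cast hD0
  have hLR : (1 : ℝ) ≤ L := by exact_mod_cast hL1
  have hgR : (6000 : ℝ) ≤ g := by exact_mod_cast hg6000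
  have hpl : Real.log (p : ℝ) ≤ 0.4 * g := by
    rw [hp]
    refine (log_nm_le S hS s _ hsb').trans ?_
    refine (mul_le_mul_of_nonneg_left hL (by positivity)).trans ?_
    rw [hD]
    push_cast
    rw [div_mul_eq_mul_div, div_le_iff₀ (by positivity)]
    linarith
  have hql : Real.log (q : ℝ) ≤ 0.4 * g := by
    rw [hq]
    refine (log_nm_le S hS (-s) (4 * g / D) (fun p hp => by
      rw [Pi.neg_apply, abs_neg]
      exact hsb' p hp)).trans ?_
    refine (mul_le_mul_of_nonneg_left hL (by positivity)).trans ?_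
    rw [hD]
    push_cast
    rw [div_mul_eq_mul_div, div_le_iff₀ (by positivity)]
    linarith
  obtain ⟨h, hh⟩ : ∃ h, h = Real.log (c : ℝ) := ⟨_, rfl⟩
  have hcR : (3 : ℝ) ≤ c := by exact_mod_cast h3
  have hh1 : 1 ≤ h := by
    rw [hh]
    have h1 : Real.log (Real.exp 1) ≤ Real.log (c : ℝ) := by
      apply Real.log_le_log (Real.exp_pos 1)
      have := Real.exp_one_lt_d9
      linarith
    rwa [Real.log_exp] at h1
  have hal : Real.log (a : ℝ) ≤ h := by
    rw [hh]
    apply Real.log_le_log (by exact_mod_cast ha)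
    exact_mod_cast (by omega : a ≤ c)
  have hbl : Real.log (b : ℝ) ≤ h := by
    rw [hh]
    apply Real.log_le_log (by exact_mod_cast hb)
    exact_mod_cast (by omega : b ≤ c)
  have hWl : (g : ℝ) * Real.log (W : ℝ) ≤ 2 * h + 0.4 * g := by
    have h1 := nm_pow_le S hS g m s (ex a b) hgm
    rw [← hW, ← hq, he1] at h1
    have h2 : Real.log ((W : ℝ) ^ g) ≤ Real.log ((a : ℝ) ^ 2 * q) := by
      apply Real.log_le_log (by positivity)
      exact_mod_cast h1
    rw [Real.log_pow, Real.log_mul (by positivity) (by positivity), Real.log_pow] at h2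
    push_cast at h2
    linarith
  have hWl' : (g : ℝ) * Real.log (W' : ℝ) ≤ 2 * h + 0.4 * g := by
    have h1 := nm_pow_le S hS g (-m) (-s) (-(ex a b)) (fun p hp => by
      have := hgm p hp
      simp only [Pi.neg_apply]
      linarith)
    rw [neg_neg, ← hW', ← hp, he2] at h1
    have h2 : Real.log ((W' : ℝ) ^ g) ≤ Real.log ((b : ℝ) ^ 2 * p) := by
      apply Real.log_le_log (by positivity)
      exact_mod_cast h1
    rw [Real.log_pow, Real.log_mul (by positivity) (by positivity), Real.log_pow] at h2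
    push_cast at h2
    linarith
  have hH2 : 0.69 * (H : ℝ) ≤ h := by
    have h1 : 2 ^ H ≤ c := hH ▸ Nat.pow_log_le_self 2 hc0
    have h2 : Real.log ((2 : ℝ) ^ H) ≤ Real.log (c : ℝ) := by
      apply Real.log_le_log (by positivity)
      exact_mod_cast h1
    rw [Real.log_pow, ← hh] at h2
    have := Real.log_two_gt_d9
    have h4 : (0 : ℝ) ≤ H := by positivity
    nlinarith
  -- the case `p = q`
  have hpq : p ≠ q := by
    intro hpq
    have h1 : Phi c S s = 1 := by
      rw [Phi_eq_one_iff c S hSc, ← hp, ← hq, hpq, sub_self]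
      exact dvd_zero _
    have h2 : Phi c S m ^ g = 1 := by
      rw [h1, one_mul] at hΦcs
      exact hΦcs
    have hcop : IsCoprime (W' : ℤ) (c : ℤ) := by
      rw [Nat.isCoprime_iff_coprime, hW']
      exact cop_nm c S hSc (-m)
    obtain ⟨y, z, hyz⟩ := hcop
    have hWy : (c : ℤ) ∣ W' * y - 1 := ⟨-z, by linear_combination hyz⟩
    have hWyZ : (W' : ZMod c) * (y : ZMod c) = 1 := by
      have := (ZMod.intCast_zmod_eq_zero_iff_dvd (W' * y - 1) c).2 hWy
      push_cast at this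
      exact sub_eq_zero.1 this
    have hvg1 : (c : ℤ) ∣ (W * y) ^ g - 1 := by
      rw [← ZMod.intCast_zmod_eq_zero_iff_dvd]
      push_cast
      rw [hWm, mul_assoc, hWyZ, mul_one, ← Units.val_pow_eq_pow_val, h2, Units.val_one, sub_self]
    have hv1c : (c : ℤ) ∣ W * y - 1 := by
      have key : ∀ t ∈ T, (t : ℤ) ^ x t ∣ W * y - 1 := by
        intro t ht
        obtain ⟨g', hg'⟩ := H85STAR.root_exp t g (x t) (hT t ht) (htg t ht)
        have k1 : (t : ℤ) ∣ W * y - 1 := by
          have e : (W : ℤ) * y - 1 = (W - W') * y + (W' * y - 1) := by ring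
          rw [e]
          refine dvd_add (Dvd.dvd.mul_right ((htP' t ht).trans hPW) _) ?_
          exact (Int.natCast_dvd_natCast.2 (hTc t ht)).trans hWy
        have k2 := hg' _ k1
        have k3 : (t : ℤ) ^ x t ∣ (W * y) ^ (g * g') - 1 := by
          rw [pow_mul]
          have := sub_dvd_pow_sub_pow (((W : ℤ) * y) ^ g) 1 g'
          rw [one_pow] at this
          exact ((hxc t ht).trans hvg1).trans this
        have e : (W : ℤ) * y - 1 = ((W * y) ^ (g * g') - 1) - ((W * y) ^ (g * g') - W * y) := by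
          ring
        rw [e]
        exact dvd_sub k3 k2
      rw [← hcx]
      exact prod_dvd_int T hT x _ key
    have hcWW : (c : ℤ) ∣ (W : ℤ) - W' := by
      have e : (W : ℤ) - W' = W' * (W * y - 1) - W * (W' * y - 1) := by ring
      rw [e]
      exact dvd_sub (Dvd.dvd.mul_left hv1c _) (Dvd.dvd.mul_left hWy _)
    have hWc : W < c := by
      have h5 : Real.log (W : ℝ) < Real.log (c : ℝ) := by
        rw [← hh]
        by_contra hcon
        push Not at hcon
        have h6 : (g : ℝ) * h ≤ g * Real.log (W : ℝ) :=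
          mul_le_mul_of_nonneg_left hcon (by positivity)
        nlinarith
      have := (Real.log_lt_log_iff (by positivity) (by positivity)).1 h5
      exact_mod_cast this
    have hWc' : W' < c := by
      have h5 : Real.log (W' : ℝ) < Real.log (c : ℝ) := by
        rw [← hh]
        by_contra hcon
        push Not at hcon
        have h6 : (g : ℝ) * h ≤ g * Real.log (W' : ℝ) :=
          mul_le_mul_of_nonneg_left hcon (by positivity)
        nlinarith
      have := (Real.log_lt_log_iff (by positivity) (by positivity)).1 h5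
      exact_mod_cast this
    have hWW : (W : ℤ) - W' = 0 := by
      refine Int.eq_zero_of_abs_lt_dvd hcWW ?_
      rw [abs_lt]
      constructor <;> omega
    have hWW' : W = W' := by omega
    have hrel := nm_rel S g m s (ex a b) hgm
    rw [← hp, ← hq, ← hW, ← hW', he1, he2, hpq, ← hWW'] at hrel
    have h7 : a ^ 2 * (q * W ^ g) = b ^ 2 * (q * W ^ g) := by
      rw [← mul_assoc, ← mul_assoc]
      exact hrel
    have h8 : a ^ 2 = b ^ 2 := Nat.eq_of_mul_eq_mul_right (by positivity) h7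
    have h9 : a = b := by
      have := Nat.pow_left_injective (n := 2) (by norm_num) h8
      exact this
    rw [h9, Nat.coprime_self] at hab
    omega
  -- the final inequality
  obtain ⟨M, hM⟩ : ∃ M, M = g / 12 := ⟨_, rfl⟩
  obtain ⟨n, hn⟩ : ∃ n, n = H / (1200 * M) + 2 := ⟨_, rfl⟩
  have hM1 : 12 * M ≤ g := by omega
  have hM2 : g ≤ 24 * M := by omega
  have hM3 : 1 ≤ M := by omega
  have hn2 : 2 ≤ n := by
    rw [hn]
    exact Nat.le_add_left 2 _
  have hn0 : n ≠ 0 := by
    intro h0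
    rw [h0] at hn2
    exact absurd hn2 (by norm_num)
  have hMn1 : H ≤ 1200 * (M * n) := by
    have h1 := Nat.lt_div_mul_add (a := H) (b := 1200 * M) (by omega)
    have h2 : 1200 * (M * n) = H / (1200 * M) * (1200 * M) + 2 * (1200 * M) := by
      rw [hn]
      ring
    omega
  have hMn2 : 1200 * (M * n) ≤ H + 2400 * M := by
    have h1 := Nat.div_mul_le_self H (1200 * M)
    have h2 : 1200 * (M * n) = H / (1200 * M) * (1200 * M) + 2 * (1200 * M) := by
      rw [hn]
      ring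
    omega
  have hMH : 14400 * M ≤ H := by omega
  have hMn0 : 1 ≤ M * n := Nat.one_le_iff_ne_zero.2 (mul_ne_zero (by omega) hn0)
  have hfin := core1 T g M n p q (W' : ℤ) (W : ℤ) μ x hT hM1 hM2 hM3 hn2 hp0 hq0 hpq
    (by exact_mod_cast hW'0.ne') (by exact_mod_cast hW0.ne') (by
      intro t ht
      refine ⟨htg t ht, ?_, ?_, hμ1 t ht, (htP t ht).trans hPpq, ?_, (hxc t ht).trans hcd, ?_⟩
      · rw [hq]
        exact not_dvd_nm c t S hSc (-s) (hT t ht) (hTc t ht)
      · rw [hW, Int.natCast_dvd_natCast]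
        exact not_dvd_nm c t S hSc m (hT t ht) (hTc t ht)
      · have := (htP' t ht).trans hPW
        rw [← dvd_neg, neg_sub]
        exact this
      · have hxH : x t ≤ H := by
          rw [hx, hH]
          exact fac_le_log c t hc0
        rw [hμ]
        simp only
        rcases le_total (x t) 1200 with h1 | h1
        · rw [min_eq_left h1]
          exact Nat.le_mul_of_pos_right _ (by omega)
        · rw [min_eq_right h1]
          omega)
  have hsum : ∑ t ∈ T, (x t : ℝ) * Real.log t = h := by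
    rw [hh, ← hcx]
    push_cast
    rw [Real.log_prod (fun t ht => pow_ne_zero _ (by exact_mod_cast (hT t ht).ne_zero))]
    exact Finset.sum_congr rfl (fun t _ => (Real.log_pow _ _).symm)
  rw [hsum] at hfin
  -- numerical bounds
  have hMR : (1 : ℝ) ≤ M := by exact_mod_cast hM3
  have hMnR : (1 : ℝ) ≤ M * n := by exact_mod_cast hMn0
  have hMnle : 1200 * ((M : ℝ) * n) ≤ 7 / 6 * H := by
    have h1 : ((1200 * (M * n) : ℕ) : ℝ) ≤ ((H + 2400 * M : ℕ) : ℝ) := by exact_mod_cast hMn2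
    have h2 : ((14400 * M : ℕ) : ℝ) ≤ (H : ℝ) := by exact_mod_cast hMH
    push_cast at h1 h2
    linarith
  have hHh : (H : ℝ) ≤ h / 0.69 := by
    rw [le_div_iff₀ (by norm_num)]
    linarith
  have hMnh : (M : ℝ) * n ≤ h / 700 := by
    have : h / 0.69 = h * (100 / 69) := by ring
    rw [this] at hHh
    linarith
  have hgh : (g : ℝ) ≤ h / 800 := by
    have h1 : 1200 * g ≤ H := by omega
    have h2 : ((1200 * g : ℕ) : ℝ) ≤ (H : ℝ) := by exact_mod_cast h1
    push_cast at h2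
    have : h / 0.69 = h * (100 / 69) := by ring
    rw [this] at hHh
    linarith
  have b1 : Real.log ((M : ℝ) * (4 * n + 1)) ≤ 5 * (M * n) := by
    have h1 : (1 : ℝ) ≤ n := by
      exact_mod_cast (Nat.one_le_iff_ne_zero.2 hn0)
    have h2 := Real.log_le_sub_one_of_pos (show (0 : ℝ) < M * (4 * n + 1) by positivity)
    nlinarith
  have hmax1 : Real.log (max (p : ℝ) (q : ℝ)) ≤ 0.4 * g := by
    rcases le_total (p : ℝ) q with h1 | h1
    · rw [max_eq_right h1]
      exact hql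
    · rw [max_eq_left h1]
      exact hpl
  have b2 : 4 * (n : ℝ) * Real.log (max (p : ℝ) (q : ℝ)) ≤ 39 * (M * n) := by
    have h1 : 4 * (n : ℝ) * Real.log (max (p : ℝ) (q : ℝ)) ≤ 4 * n * (0.4 * g) :=
      mul_le_mul_of_nonneg_left hmax1 (by positivity)
    have h2 : (g : ℝ) ≤ 24 * M := by exact_mod_cast hM2
    have h3 : (n : ℝ) * g ≤ n * (24 * M) := mul_le_mul_of_nonneg_left h2 (by positivity)
    nlinarith
  have hmax2 : (g : ℝ) * Real.log (max |(((W' : ℤ)) : ℝ)| |(((W : ℤ)) : ℝ)|) ≤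
      2 * h + 0.4 * g := by
    push_cast
    rw [Nat.abs_cast, Nat.abs_cast]
    rcases le_total (W' : ℝ) W with h1 | h1
    · rw [max_eq_right h1]
      exact hWl
    · rw [max_eq_left h1]
      exact hWl'
  have b3 : 12 * ((M : ℝ) * Real.log (max |(((W' : ℤ)) : ℝ)| |(((W : ℤ)) : ℝ)|)) ≤
      2 * h + 0.4 * g := by
    refine le_trans ?_ hmax2
    have h1 : (12 : ℝ) * M ≤ g := by exact_mod_cast hM1
    have h2 : 0 ≤ Real.log (max |(((W' : ℤ)) : ℝ)| |(((W : ℤ)) : ℝ)|) := by
      apply Real.log_nonneg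
      apply le_max_of_le_right
      push_cast
      rw [Nat.abs_cast]
      exact_mod_cast hW0
    have h3 := mul_le_mul_of_nonneg_right h1 h2
    linarith
  linarith

end H62EHB
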